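import Mathlib
import Pool.Agent.W593.IR.Stm

/-!
# The two asymptotic upper bounds in the form `UBS`
-/

set_option autoImplicit false

namespace Pool.Agent.W428.IR.UB

open Finset Pool.Agent.W890.SF Pool.Agent.W593.IR Filter Topology

/-- subfamilies of matchings -/
lemma hasM_mono {α : Type} {F : Finset (Finset α)} {s t : ℕ} (h : HasM F s) (hts : t ≤ s) :
    HasM F t := by
  obtain ⟨M, hM, hm, hc⟩ := h
  obtain ⟨M', hM', hc'⟩ := Finset.exists_subset_card_eq (hc ▸ hts : t ≤ M.card)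
  exact ⟨M', hM'.trans hM, fun e he e' he' hne => hm e (hM' he) e' (hM' he') hne, hc'⟩

/-- `UBS` from an asymptotic bound which is continuous at `x` -/
lemma ubs_of (k : ℕ) (x : ℝ) (hx : 0 < x) (hx1 : (k : ℝ) * x < 1) (B : ℝ → ℝ)
    (hcont : ContinuousAt B x) (hval : B x ≤ mv k x)
    (H : ∀ y : ℝ, 0 < y → (k : ℝ) * y < 1 → ∀ ε : ℝ, 0 < ε → ∃ n0 : ℕ, ∀ n : ℕ, n0 ≤ n →
      ∀ F : Finset (Finset (Fin n)), Unif k F →
        (B y + ε) * ((n.choose k : ℕ) : ℝ) ≤ (F.card : ℝ) → HasM F (⌊y * n⌋₊ + 1)) :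
    UBS k x := by
  intro ε hε
  have hev1 : ∀ᶠ y in 𝓝 x, B y < mv k x + ε / 2 :=
    hcont.tendsto.eventually_lt_const (by linarith)
  have hc2 : ContinuousAt (fun y : ℝ => (k : ℝ) * y) x := by fun_prop
  have hev2 : ∀ᶠ y in 𝓝 x, (k : ℝ) * y < 1 := hc2.tendsto.eventually_lt_const hx1
  obtain ⟨δ, hδ, hball⟩ := Metric.eventually_nhds_iff.1 (hev1.and hev2)
  refine ⟨δ / 2, by positivity, ?_⟩
  have hd : dist (x + δ / 2) x < δ := by
    rw [Real.dist_eq, show x + δ / 2 - x = δ / 2 by ring, abs_of_pos (by positivity)]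
    linarith
  obtain ⟨h1, h2⟩ := hball hd
  obtain ⟨n0, hn0⟩ := H (x + δ / 2) (by positivity) h2 (ε / 2) (by positivity)
  refine ⟨n0, fun n hn F hF hcard => ?_⟩
  refine hasM_mono (hn0 n hn F hF (le_trans ?_ hcard)) (Nat.le_succ _)
  exact mul_le_mul_of_nonneg_right (by linarith) (Nat.cast_nonneg _)

/-- `UBS` from `S_CL` -/
theorem ubb : S_UBB := by
  intro hCL r C hr hC hS x hx hx1 hB
  have hk : ((r + 1 : ℕ) : ℝ) = (r : ℝ) + 1 := by push_cast; ring
  refine ubs_of (r + 1) x hx (by rw [hk]; exact hx1)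
    (fun y : ℝ => Bd (r + 1) C (((r : ℝ) + 1) * y)) ?_ ?_ ?_
  · unfold Bd
    fun_prop
  · have hk0 : ((r : ℝ) + 1) ≠ 0 := by positivity
    unfold CondB at hB
    show Bd (r + 1) C (((r : ℝ) + 1) * x) ≤ mv (r + 1) x
    unfold Bd
    refine max_le ?_ ?_
    · have : (((r : ℝ) + 1) * x) ^ (r + 1) ≤ mv (r + 1) x := by
        unfold mv
        rw [hk]
        exact le_max_right _ _
      exact this
    · rw [hk] at hB ⊢
      rw [mul_div_cancel_left₀ x hk0]
      exact hB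
  · intro y hy hy1 ε hε
    exact hCL r C hr hC hS y hy (by rw [← hk]; exact hy1) ε hε

/-- `UBS` from `S_ASY` -/
theorem uba : S_UBA := by
  intro hA k hk x hx hx1 hB
  have hk2 : (2 : ℝ) ≤ (k : ℝ) := by exact_mod_cast hk
  have hden : 0 < 1 - ((k : ℝ) - 1) * x := by nlinarith
  refine ubs_of k x hx hx1
    (fun y : ℝ => max (1 - (1 - y) ^ k) (y / (1 - ((k : ℝ) - 1) * y))) ?_ ?_ ?_
  · have c1 : ContinuousAt (fun y : ℝ => 1 - (1 - y) ^ k) x := by fun_prop
    have c2 : ContinuousAt (fun y : ℝ => y / (1 - ((k : ℝ) - 1) * y)) x :=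
      ContinuousAt.div (by fun_prop) (by fun_prop) hden.ne'
    exact c1.sup c2
  · show max (1 - (1 - x) ^ k) (x / (1 - ((k : ℝ) - 1) * x)) ≤ mv k x
    unfold mv
    refine le_trans (max_le le_rfl ?_) (le_max_left _ _)
    unfold CondA at hB
    have he : x / (1 - ((k : ℝ) - 1) * x) = 1 - (1 - k * x) / (1 - ((k : ℝ) - 1) * x) := by
      have hd := hden.ne'
      rw [eq_sub_iff_add_eq, ← add_div, div_eq_one_iff_eq hd]
      ring
    rw [he]
    linarith
  · intro y hy hy1 ε hε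
    exact hA k hk y hy hy1 ε hε

end Pool.Agent.W428.IR.UB
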